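import Mathlib

/-!
# Borel edge partitions meeting three line families in the free part of the 2-shift

The answer to the question is yes. Every edge of the graph lies in exactly one line `H x` or `V x`
and in exactly one line `D x`. The four edges at a point `x` belong to four lines, and these four
lines form a cycle: consecutive lines share one of the four edges. Take a Borel set `S` of pairwise
nonadjacent points which meets every orbit, and give at each point of `S` the four edges to the four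
lines around the cycle. The distance of a line to the lines which meet `S` (one step: two lines which
share an edge) is finite, and every other edge is given to the one of its two lines which has the
larger distance. So every line gets an edge. The edges of the lines `H x` and `V x` form the sets `A`
and `B`, and the edges of the lines `D x` form the set `C`.
-/

set_option autoImplicit false

namespace Pool.Agent.Results.MP_2fa24b_lc.BorelPartition

open Set

/-- the free group of rank two -/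
abbrev F : Type := FreeGroup (Fin 2)

/-- the generator `a` -/
def a : F := FreeGroup.of 0

/-- the generator `b` -/
def b : F := FreeGroup.of 1

/-- the shift `(g · x) (h) = x (g⁻¹ h)` -/
def shift (g : F) (x : F → Bool) : F → Bool := fun h => x (g⁻¹ * h)

/-- the free part of the shift -/
def freePart : Set (F → Bool) := {x | ∀ g : F, g ≠ 1 → shift g x ≠ x}

/-- The free part of the shift, with the topology induced by the product topology of `F → Bool`. -/
abbrev X : Type := ↥freePart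

lemma shift_mul (g h : F) (x : F → Bool) : shift (g * h) x = shift g (shift h x) := by
  funext k
  simp [shift, mul_assoc]

lemma shift_one (x : F → Bool) : shift 1 x = x := by
  funext k
  simp [shift]

/-- the action of `F` on the free part of the shift -/
instance : MulAction F X where
  smul g x := ⟨shift g x.1, fun h hh he => x.2 (g⁻¹ * h * g)
    (fun h1 => hh (by
      have := congrArg (fun t => g * t * g⁻¹) h1
      simpa [mul_assoc] using this))
    (by rw [shift_mul, shift_mul, he, ← shift_mul, inv_mul_cancel, shift_one])⟩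
  one_smul x := Subtype.ext (shift_one x.1)
  mul_smul g h x := Subtype.ext (shift_mul g h x.1)

/-- the points `x` and `y` are joined by an edge of `G` -/
def Adj (x y : X) : Prop := y = a • x ∨ x = a • y ∨ y = b • x ∨ x = b • y

/-- `w 0 = 1`, `w (n + 1) = a * w n` for even `n` and `w (n + 1) = b * w n` for odd `n` -/
def w (n : ℤ) : F := if Even n then (b * a) ^ (n / 2) else a * (b * a) ^ (n / 2)

/-- the set `S · x` contains an edge of `P` -/
def Contains (S : Set F) (x : X) (P : Set (X × X)) : Prop :=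
  ∃ s ∈ S, ∃ t ∈ S, (s • x, t • x) ∈ P

/-- `P` is a Borel set in `X × X` -/
def IsBorel (P : Set (X × X)) : Prop := @MeasurableSet (X × X) (borel (X × X)) P

lemma smul_val (g : F) (x : X) : (g • x).1 = shift g x.1 := rfl

lemma free {g : F} {x : X} (h : g • x = x) : g = 1 := by
  by_contra hg
  exact x.2 g hg (congrArg Subtype.val h)

instance : Countable F := by
  unfold F FreeGroup
  infer_instance

lemma borelX : BorelSpace (X × X) := inferInstance

/-! ### measurability -/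

lemma meas_smul (g : F) : Measurable (fun x : X => g • x) := by
  apply Measurable.subtype_mk
  rw [measurable_pi_iff]
  intro h
  exact (measurable_pi_apply (g⁻¹ * h)).comp measurable_subtype_coe

lemma meas_eqB {α : Type*} [MeasurableSpace α] {f g : α → Bool} (hf : Measurable f)
    (hg : Measurable g) : Measurable (fun x => f x = g x) :=
  (measurable_of_countable (fun p : Bool × Bool => p.1 = p.2)).comp (hf.prodMk hg)

lemma meas_eq {α : Type*} [MeasurableSpace α] {f g : α → X} (hf : Measurable f)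
    (hg : Measurable g) : Measurable (fun x => f x = g x) := by
  have h : (fun x => f x = g x) = fun x => ∀ k : F, (f x).1 k = (g x).1 k := by
    funext x
    rw [eq_iff_iff, Subtype.ext_iff, funext_iff]
  rw [h]
  refine Measurable.forall fun k => meas_eqB ?_ ?_
  · exact (measurable_pi_apply k).comp (measurable_subtype_coe.comp hf)
  · exact (measurable_pi_apply k).comp (measurable_subtype_coe.comp hg)

/-! ### an independent complete section -/

/-- basic clopen sets -/
def U (i : Finset F × Finset F) : Set X := {x | ∀ h ∈ i.1, (x.1 h = true ↔ h ∈ i.2)}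

lemma meas_U (i : Finset F × Finset F) : Measurable (fun x : X => x ∈ U i) := by
  have h : (fun x : X => x ∈ U i) = fun x => ∀ h : F, h ∈ i.1 → (x.1 h = decide (h ∈ i.2)) := by
    funext x
    unfold U
    rw [eq_iff_iff, mem_ofPred_eq]
    refine forall_congr' fun h => imp_congr_right fun _ => ?_
    cases x.1 h <;> simp
  rw [h]
  refine Measurable.forall fun h => Measurable.imp measurable_const (meas_eqB ?_ measurable_const)
  exact (measurable_pi_apply h).comp measurable_subtype_coe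

lemma smul_ne {g : F} (hg : g ≠ 1) (x : X) : ∃ h, (g • x).1 h ≠ x.1 h := by
  by_contra hc
  push Not at hc
  exact hg (free (Subtype.ext (funext hc)))

lemma a_ne : a ≠ 1 := by unfold a; decide
lemma b_ne : b ≠ 1 := by unfold b; decide

lemma exists_U (x : X) : ∃ i, x ∈ U i ∧ a • x ∉ U i ∧ b • x ∉ U i := by
  classical
  obtain ⟨h1, e1⟩ := smul_ne a_ne x
  obtain ⟨h2, e2⟩ := smul_ne b_ne x
  have key : ∀ (y : X) (k : F), k ∈ ({h1, h2} : Finset F) → y.1 k ≠ x.1 k →
      y ∉ U ({h1, h2}, ({h1, h2} : Finset F).filter (fun h => x.1 h = true)) := by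
    intro y k hk hne hy
    have h3 := hy k hk
    rw [Finset.mem_filter] at h3
    apply hne
    cases hx : x.1 k <;> cases hy' : y.1 k <;> simp_all
  refine ⟨({h1, h2}, ({h1, h2} : Finset F).filter (fun h => x.1 h = true)), ?_, ?_, ?_⟩
  · intro h hh
    rw [Finset.mem_filter]
    exact ⟨fun h3 => ⟨hh, h3⟩, fun h3 => h3.2⟩
  · exact key _ h1 (by simp) e1
  · exact key _ h2 (by simp) e2

/-- points which are separated from their neighbours by the set with number `n` -/
def T (e : ℕ → Finset F × Finset F) (n : ℕ) : Set X :=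
  {x | x ∈ U (e n) ∧ a • x ∉ U (e n) ∧ b • x ∉ U (e n)}

lemma meas_T (e : ℕ → Finset F × Finset F) (n : ℕ) : Measurable (fun x : X => x ∈ T e n) :=
  (meas_U _).and (((meas_U _).comp (meas_smul a)).not.and ((meas_U _).comp (meas_smul b)).not)

lemma exists_S : ∃ S : Set X, Measurable (fun x => x ∈ S) ∧ (∀ x ∈ S, a • x ∉ S ∧ b • x ∉ S) ∧
    ∀ x, ∃ g : F, g • x ∈ S := by
  classical
  obtain ⟨e, he⟩ := exists_surjective_nat (Finset F × Finset F)
  refine ⟨{x | ∃ n, x ∈ T e n ∧ ∀ m, m < n → ∀ g : F, g • x ∉ T e m}, ?_, ?_, ?_⟩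
  · refine Measurable.exists fun n => (meas_T e n).and ?_
    refine Measurable.forall fun m => Measurable.imp measurable_const ?_
    exact Measurable.forall fun g => ((meas_T e m).comp (meas_smul g)).not
  · have key : ∀ (g : F) (x : X), (∀ n, x ∈ T e n → g • x ∉ T e n) →
        (∃ n, x ∈ T e n ∧ ∀ m, m < n → ∀ g : F, g • x ∉ T e m) →
        ¬ ∃ n, g • x ∈ T e n ∧ ∀ m, m < n → ∀ g' : F, g' • g • x ∉ T e m := by
      rintro g x hg ⟨n, h1, h2⟩ ⟨m, h3, h4⟩
      rcases lt_trichotomy n m with h | h | h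
      · apply h4 n h g⁻¹
        rwa [inv_smul_smul]
      · subst h
        exact hg n h1 h3
      · exact h2 m h g h3
    intro x hx
    exact ⟨key a x (fun n h1 h2 => h1.2.1 h2.1) hx, key b x (fun n h1 h2 => h1.2.2 h2.1) hx⟩
  · intro x
    have h : ∃ n, ∃ g : F, g • x ∈ T e n := by
      obtain ⟨i, hi⟩ := exists_U x
      obtain ⟨n, rfl⟩ := he i
      exact ⟨n, 1, by rw [one_smul]; exact hi⟩
    obtain ⟨g, hg⟩ := Nat.find_spec h
    refine ⟨g, Nat.find h, hg, fun m hm g' hg' => Nat.find_min h hm ⟨g' * g, ?_⟩⟩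
    rwa [mul_smul]

/-! ### the distance of the lines to the set `S` -/

/-- The distance is at most `j`: for the line `H x`, for the line `V x`, for the line `D x`. -/
def Lv (S : Set X) : ℕ → (X → Prop) × (X → Prop) × (X → Prop)
  | 0 => (fun x => ∃ n : ℤ, a ^ n • x ∈ S, fun x => ∃ n : ℤ, b ^ n • x ∈ S,
      fun x => (∃ n : ℤ, (b * a) ^ n • x ∈ S) ∨ ∃ n : ℤ, a • (b * a) ^ n • x ∈ S)
  | j + 1 => (fun x => (Lv S j).1 x ∨ ∃ n : ℤ, (Lv S j).2.2 (a ^ n • x),
      fun x => (Lv S j).2.1 x ∨ ∃ n : ℤ, (Lv S j).2.2 (a⁻¹ • b ^ n • x),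
      fun x => (Lv S j).2.2 x ∨ (∃ n : ℤ, (Lv S j).1 ((b * a) ^ n • x)) ∨
        ∃ n : ℤ, (Lv S j).2.1 (a • (b * a) ^ n • x))

lemma meas_Lv {S : Set X} (hS : Measurable (fun x => x ∈ S)) (j : ℕ) :
    Measurable (Lv S j).1 ∧ Measurable (Lv S j).2.1 ∧ Measurable (Lv S j).2.2 := by
  induction j with
  | zero =>
    refine ⟨Measurable.exists fun n => hS.comp (meas_smul _),
      Measurable.exists fun n => hS.comp (meas_smul _),
      (Measurable.exists fun n => hS.comp (meas_smul _)).or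
        (Measurable.exists fun n => hS.comp ((meas_smul _).comp (meas_smul _)))⟩
  | succ j ih =>
    obtain ⟨h1, h2, h3⟩ := ih
    refine ⟨h1.or (Measurable.exists fun n => h3.comp (meas_smul _)),
      h2.or (Measurable.exists fun n => h3.comp ((meas_smul _).comp (meas_smul _))),
      h3.or ((Measurable.exists fun n => h1.comp (meas_smul _)).or
        (Measurable.exists fun n => h2.comp ((meas_smul _).comp (meas_smul _))))⟩

lemma ex_shift {P : X → Prop} (g : F) (m : ℤ) (x : X) :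
    (∃ n : ℤ, P (g ^ n • g ^ m • x)) ↔ ∃ n : ℤ, P (g ^ n • x) := by
  constructor
  · rintro ⟨n, h⟩
    exact ⟨n + m, by rwa [zpow_add, mul_smul]⟩
  · rintro ⟨n, h⟩
    exact ⟨n - m, by rwa [← mul_smul, ← zpow_add, sub_add_cancel]⟩

lemma Lv_inv (S : Set X) (j : ℕ) (m : ℤ) (x : X) :
    ((Lv S j).1 (a ^ m • x) ↔ (Lv S j).1 x) ∧ ((Lv S j).2.1 (b ^ m • x) ↔ (Lv S j).2.1 x) ∧
      ((Lv S j).2.2 ((b * a) ^ m • x) ↔ (Lv S j).2.2 x) := by
  induction j with
  | zero =>
    refine ⟨ex_shift (P := fun y => y ∈ S) a m x, ex_shift (P := fun y => y ∈ S) b m x,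
      or_congr (ex_shift (P := fun y => y ∈ S) (b * a) m x)
        (ex_shift (P := fun y => a • y ∈ S) (b * a) m x)⟩
  | succ j ih =>
    obtain ⟨h1, h2, h3⟩ := ih
    exact ⟨or_congr h1 (ex_shift (P := fun y => (Lv S j).2.2 y) a m x),
      or_congr h2 (ex_shift (P := fun y => (Lv S j).2.2 (a⁻¹ • y)) b m x),
      or_congr h3 (or_congr (ex_shift (P := fun y => (Lv S j).1 y) (b * a) m x)
        (ex_shift (P := fun y => (Lv S j).2.1 (a • y)) (b * a) m x))⟩

lemma Lv_mono (S : Set X) {i j : ℕ} (h : i ≤ j) (x : X) :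
    ((Lv S i).1 x → (Lv S j).1 x) ∧ ((Lv S i).2.1 x → (Lv S j).2.1 x) ∧
      ((Lv S i).2.2 x → (Lv S j).2.2 x) := by
  induction h with
  | refl => exact ⟨id, id, id⟩
  | step _ ih => exact ⟨fun h => Or.inl (ih.1 h), fun h => Or.inl (ih.2.1 h),
      fun h => Or.inl (ih.2.2 h)⟩

lemma D_of_H {S : Set X} {j : ℕ} {x : X} (h : (Lv S j).1 x) : (Lv S (j + 1)).2.2 x :=
  Or.inr (Or.inl ⟨0, by rwa [zpow_zero, one_smul]⟩)

lemma H_of_D {S : Set X} {j : ℕ} {x : X} (h : (Lv S j).2.2 x) : (Lv S (j + 1)).1 x :=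
  Or.inr ⟨0, by rwa [zpow_zero, one_smul]⟩

lemma V_of_D' {S : Set X} {j : ℕ} {x : X} (h : (Lv S j).2.2 (a⁻¹ • x)) : (Lv S (j + 1)).2.1 x :=
  Or.inr ⟨0, by rwa [zpow_zero, one_smul]⟩

lemma D'_of_V {S : Set X} {j : ℕ} {x : X} (h : (Lv S j).2.1 x) : (Lv S (j + 1)).2.2 (a⁻¹ • x) :=
  Or.inr (Or.inr ⟨0, by rwa [zpow_zero, one_smul, smul_inv_smul]⟩)

/-- the line `D x` has finite distance -/
def E (S : Set X) (x : X) : Prop := ∃ j, (Lv S j).2.2 x

lemma E_iff_H (S : Set X) (x : X) : E S x ↔ ∃ j, (Lv S j).1 x :=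
  ⟨fun ⟨j, h⟩ => ⟨j + 1, H_of_D h⟩, fun ⟨j, h⟩ => ⟨j + 1, D_of_H h⟩⟩

lemma E'_iff_V (S : Set X) (x : X) : E S (a⁻¹ • x) ↔ ∃ j, (Lv S j).2.1 x :=
  ⟨fun ⟨j, h⟩ => ⟨j + 1, V_of_D' h⟩, fun ⟨j, h⟩ => ⟨j + 1, D'_of_V h⟩⟩

lemma E_a (S : Set X) (x : X) (m : ℤ) : E S (a ^ m • x) ↔ E S x := by
  rw [E_iff_H, E_iff_H]
  exact exists_congr fun j => (Lv_inv S j m x).1

lemma E_a1 (S : Set X) (x : X) : E S (a • x) ↔ E S x := by
  have := E_a S x 1
  rwa [zpow_one] at this

lemma E_iff_V (S : Set X) (x : X) : E S x ↔ ∃ j, (Lv S j).2.1 x := by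
  rw [← E'_iff_V, ← E_a1 S (a⁻¹ • x), smul_inv_smul]

lemma E_b1 (S : Set X) (x : X) : E S (b • x) ↔ E S x := by
  rw [E_iff_V, E_iff_V]
  refine exists_congr fun j => ?_
  have := (Lv_inv S j 1 x).2.1
  rwa [zpow_one] at this

lemma E_smul (S : Set X) (g : F) : ∀ x, E S (g • x) ↔ E S x := by
  induction g using FreeGroup.induction_on with
  | C1 => intro x; rw [one_smul]
  | of i =>
    intro x
    fin_cases i
    · exact E_a1 S x
    · exact E_b1 S x
  | inv_of i ih =>
    intro x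
    have := ih ((FreeGroup.of i)⁻¹ • x)
    rw [smul_inv_smul] at this
    exact this.symm
  | mul g h ihg ihh =>
    intro x
    rw [mul_smul, ihg, ihh]

lemma E_all {S : Set X} (hc : ∀ x, ∃ g : F, g • x ∈ S) (x : X) : E S x := by
  obtain ⟨g, hg⟩ := hc x
  rw [← E_smul S g x, E_iff_H]
  exact ⟨0, 0, by rwa [zpow_zero, one_smul]⟩

/-! ### the partition -/

/-- the edge from `y` to `a y` belongs to `A` -/
def onA (S : Set X) (y : X) : Prop :=
  a • y ∈ S ∨ (y ∉ S ∧ ∃ j, (Lv S j).2.2 y ∧ ¬ (Lv S j).1 y)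

/-- the edge from `y` to `b y` belongs to `B` -/
def onB (S : Set X) (y : X) : Prop :=
  b • y ∈ S ∨ (y ∉ S ∧ ∃ j, (Lv S j).2.2 (a⁻¹ • y) ∧ ¬ (Lv S j).2.1 y)

lemma meas_onA {S : Set X} (hS : Measurable (fun x => x ∈ S)) : Measurable (onA S) :=
  (hS.comp (meas_smul a)).or (hS.not.and (Measurable.exists fun j =>
    (meas_Lv hS j).2.2.and (meas_Lv hS j).1.not))

lemma meas_onB {S : Set X} (hS : Measurable (fun x => x ∈ S)) : Measurable (onB S) :=
  (hS.comp (meas_smul b)).or (hS.not.and (Measurable.exists fun j =>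
    ((meas_Lv hS j).2.2.comp (meas_smul _)).and (meas_Lv hS j).2.1.not))

lemma hitA {S : Set X} (hc : ∀ x, ∃ g : F, g • x ∈ S) (x : X) : ∃ n : ℤ, onA S (a ^ n • x) := by
  classical
  have hj := (E_iff_H S x).1 (E_all hc x)
  have h1 := Nat.find_spec hj
  have h2 : ∀ i, i < Nat.find hj → ¬ (Lv S i).1 x := fun i hi => Nat.find_min hj hi
  rcases hk : Nat.find hj with _ | k
  · rw [hk] at h1
    obtain ⟨n, hn⟩ := h1
    refine ⟨n - 1, Or.inl ?_⟩
    rwa [← mul_smul, ← zpow_one_add, add_sub_cancel]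
  · rw [hk] at h1 h2
    have h3 := h2 k (Nat.lt_succ_self k)
    rcases h1 with h1 | ⟨n, hn⟩
    · exact absurd h1 h3
    refine ⟨n, Or.inr ⟨fun h4 => h3 ?_, k, hn, fun h4 => h3 ((Lv_inv S k n x).1.1 h4)⟩⟩
    exact (Lv_mono S (Nat.zero_le k) x).1 ⟨n, h4⟩

lemma hitB {S : Set X} (hc : ∀ x, ∃ g : F, g • x ∈ S) (x : X) : ∃ n : ℤ, onB S (b ^ n • x) := by
  classical
  have hj := (E_iff_V S x).1 (E_all hc x)
  have h1 := Nat.find_spec hj
  have h2 : ∀ i, i < Nat.find hj → ¬ (Lv S i).2.1 x := fun i hi => Nat.find_min hj hi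
  rcases hk : Nat.find hj with _ | k
  · rw [hk] at h1
    obtain ⟨n, hn⟩ := h1
    refine ⟨n - 1, Or.inl ?_⟩
    rwa [← mul_smul, ← zpow_one_add, add_sub_cancel]
  · rw [hk] at h1 h2
    have h3 := h2 k (Nat.lt_succ_self k)
    rcases h1 with h1 | ⟨n, hn⟩
    · exact absurd h1 h3
    refine ⟨n, Or.inr ⟨fun h4 => h3 ?_, k, hn, fun h4 => h3 ((Lv_inv S k n x).2.1.1 h4)⟩⟩
    exact (Lv_mono S (Nat.zero_le k) x).2.1 ⟨n, h4⟩

lemma hitC {S : Set X} (hi : ∀ x ∈ S, a • x ∉ S ∧ b • x ∉ S) (hc : ∀ x, ∃ g : F, g • x ∈ S)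
    (x : X) : ∃ n : ℤ, ¬ onA S ((b * a) ^ n • x) ∨ ¬ onB S (a • (b * a) ^ n • x) := by
  classical
  have hj := E_all hc x
  have h1 := Nat.find_spec hj
  have h2 : ∀ i, i < Nat.find hj → ¬ (Lv S i).2.2 x := fun i hi => Nat.find_min hj hi
  rcases hk : Nat.find hj with _ | k
  · rw [hk] at h1
    rcases h1 with ⟨n, hn⟩ | ⟨n, hn⟩
    · refine ⟨n, Or.inl ?_⟩
      rintro (h3 | h3)
      · exact (hi _ hn).1 h3
      · exact h3.1 hn
    · refine ⟨n, Or.inr ?_⟩
      rintro (h3 | h3)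
      · exact (hi _ hn).2 h3
      · exact h3.1 hn
  · rw [hk] at h1 h2
    have h3 := h2 k (Nat.lt_succ_self k)
    have h0 : ¬ (Lv S 0).2.2 x := fun h => h3 ((Lv_mono S (Nat.zero_le k) x).2.2 h)
    rcases h1 with h1 | ⟨n, hn⟩ | ⟨n, hn⟩
    · exact absurd h1 h3
    · refine ⟨n, Or.inl ?_⟩
      rintro (h4 | ⟨-, i, h4, h5⟩)
      · exact h0 (Or.inr ⟨n, h4⟩)
      · have h6 : i < k := by
          by_contra h6
          exact h5 ((Lv_mono S (not_lt.1 h6) _).1 hn)
        exact h2 i (by omega) ((Lv_inv S i n x).2.2.1 h4)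
    · refine ⟨n, Or.inr ?_⟩
      rintro (h4 | ⟨-, i, h4, h5⟩)
      · refine h0 (Or.inl ⟨1 + n, ?_⟩)
        rwa [zpow_one_add, mul_smul, mul_smul]
      · have h6 : i < k := by
          by_contra h6
          exact h5 ((Lv_mono S (not_lt.1 h6) _).2.1 hn)
        rw [inv_smul_smul] at h4
        exact h2 i (by omega) ((Lv_inv S i n x).2.2.1 h4)

/-! ### the sequence `w` -/

lemma w_even (n : ℤ) : w (2 * n) = (b * a) ^ n := by
  unfold w
  rw [if_pos (even_two_mul n)]
  congr 1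
  omega

lemma w_odd (n : ℤ) : w (2 * n + 1) = a * (b * a) ^ n := by
  unfold w
  rw [if_neg (by rw [Int.not_even_iff_odd]; exact odd_two_mul_add_one n)]
  congr 2
  omega

lemma w_rec_even (n : ℤ) (h : Even n) : w (n + 1) = a * w n := by
  obtain ⟨k, rfl⟩ := h.exists_two_nsmul
  rw [nsmul_eq_mul, Nat.cast_ofNat, w_odd, w_even]

lemma w_rec_odd (n : ℤ) (h : Odd n) : w (n + 1) = b * w n := by
  obtain ⟨k, rfl⟩ := h
  have : 2 * k + 1 + 1 = 2 * (1 + k) := by ring
  rw [this, w_even, w_odd, zpow_one_add, mul_assoc]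

lemma aa_ne : a * a ≠ 1 := by unfold a; decide
lemma bb_ne : b * b ≠ 1 := by unfold b; decide
lemma ab_ne : a * b ≠ 1 := by unfold a b; decide
lemma ba_ne : b * a ≠ 1 := by unfold a b; decide
lemma a_ne_b : a ≠ b := by unfold a b; decide

lemma sm_eq {g h : F} {x : X} (e : g • x = h • x) : g = h := by
  have : h⁻¹ * g = 1 := free (x := x) (by rw [mul_smul, e, inv_smul_smul])
  exact (inv_mul_eq_one.1 this).symm

lemma n1 {x y : X} (h : y = a • x) (h' : x = a • y) : False := by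
  rw [h, ← mul_smul] at h'
  exact aa_ne (free h'.symm)

lemma n2 {x y : X} (h : y = b • x) (h' : x = b • y) : False := by
  rw [h, ← mul_smul] at h'
  exact bb_ne (free h'.symm)

lemma n3 {x y : X} (h : y = a • x) (h' : y = b • x) : False :=
  a_ne_b (sm_eq (h.symm.trans h'))

lemma n4 {x y : X} (h : y = a • x) (h' : x = b • y) : False := by
  rw [h, ← mul_smul] at h'
  exact ba_ne (free h'.symm)

/-- **Theorem.** There is a partition of the edges of `G` into Borel sets `A`, `B`, `C` such that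
`H · x` contains an edge of `A`, `V · x` contains an edge of `B` and `D · x` contains an edge of `C`,
for all `x`. (A set of edges is given by the symmetric set of the pairs of their endpoints.) -/
theorem result :
    (w 0 = 1 ∧ (∀ n, Even n → w (n + 1) = a * w n) ∧ ∀ n, Odd n → w (n + 1) = b * w n) ∧
    ∃ A B C : Set (X × X),
      IsBorel A ∧ IsBorel B ∧ IsBorel C ∧
      (∀ x y, (x, y) ∈ A → (y, x) ∈ A) ∧ (∀ x y, (x, y) ∈ B → (y, x) ∈ B) ∧
      (∀ x y, (x, y) ∈ C → (y, x) ∈ C) ∧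
      Disjoint A B ∧ Disjoint A C ∧ Disjoint B C ∧
      A ∪ B ∪ C = {e : X × X | Adj e.1 e.2} ∧
      ∀ x : X, Contains {g | ∃ n : ℤ, g = a ^ n} x A ∧ Contains {g | ∃ n : ℤ, g = b ^ n} x B ∧
        Contains (Set.range w) x C := by
  refine ⟨⟨?_, w_rec_even, w_rec_odd⟩, ?_⟩
  · have := w_even 0
    rwa [mul_zero, zpow_zero] at this
  obtain ⟨S, hS, hi, hc⟩ := exists_S
  have m1 : Measurable (fun e : X × X => e.2 = a • e.1) :=
    meas_eq measurable_snd ((meas_smul a).comp measurable_fst)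
  have m2 : Measurable (fun e : X × X => e.1 = a • e.2) :=
    meas_eq measurable_fst ((meas_smul a).comp measurable_snd)
  have m3 : Measurable (fun e : X × X => e.2 = b • e.1) :=
    meas_eq measurable_snd ((meas_smul b).comp measurable_fst)
  have m4 : Measurable (fun e : X × X => e.1 = b • e.2) :=
    meas_eq measurable_fst ((meas_smul b).comp measurable_snd)
  have p1 : Measurable (fun e : X × X => onA S e.1) := (meas_onA hS).comp measurable_fst
  have p2 : Measurable (fun e : X × X => onA S e.2) := (meas_onA hS).comp measurable_snd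
  have q1 : Measurable (fun e : X × X => onB S e.1) := (meas_onB hS).comp measurable_fst
  have q2 : Measurable (fun e : X × X => onB S e.2) := (meas_onB hS).comp measurable_snd
  refine ⟨{e | (e.2 = a • e.1 ∧ onA S e.1) ∨ (e.1 = a • e.2 ∧ onA S e.2)},
    {e | (e.2 = b • e.1 ∧ onB S e.1) ∨ (e.1 = b • e.2 ∧ onB S e.2)},
    {e | (e.2 = a • e.1 ∧ ¬ onA S e.1) ∨ (e.1 = a • e.2 ∧ ¬ onA S e.2) ∨
      (e.2 = b • e.1 ∧ ¬ onB S e.1) ∨ (e.1 = b • e.2 ∧ ¬ onB S e.2)},
    ?_, ?_, ?_, ?_, ?_, ?_, ?_, ?_, ?_, ?_, ?_⟩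
  · unfold IsBorel
    rw [← borelX.measurable_eq]
    exact measurableSet_setOfPred.2 ((m1.and p1).or (m2.and p2))
  · unfold IsBorel
    rw [← borelX.measurable_eq]
    exact measurableSet_setOfPred.2 ((m3.and q1).or (m4.and q2))
  · unfold IsBorel
    rw [← borelX.measurable_eq]
    exact measurableSet_setOfPred.2 ((m1.and p1.not).or ((m2.and p2.not).or
      ((m3.and q1.not).or (m4.and q2.not))))
  · rintro x y (h | h)
    · exact Or.inr h
    · exact Or.inl h
  · rintro x y (h | h)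
    · exact Or.inr h
    · exact Or.inl h
  · rintro x y (h | h | h | h)
    · exact Or.inr (Or.inl h)
    · exact Or.inl h
    · exact Or.inr (Or.inr (Or.inr h))
    · exact Or.inr (Or.inr (Or.inl h))
  · rw [Set.disjoint_left]
    rintro ⟨x, y⟩ (⟨h, -⟩ | ⟨h, -⟩) (⟨h', -⟩ | ⟨h', -⟩)
    · exact n3 h h'
    · exact n4 h h'
    · exact n4 h h'
    · exact n3 h h'
  · rw [Set.disjoint_left]
    rintro ⟨x, y⟩ (⟨h, k⟩ | ⟨h, k⟩) (⟨h', k'⟩ | ⟨h', k'⟩ | ⟨h', k'⟩ | ⟨h', k'⟩)
    · exact k' k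
    · exact n1 h h'
    · exact n3 h h'
    · exact n4 h h'
    · exact n1 h h'
    · exact k' k
    · exact n4 h h'
    · exact n3 h h'
  · rw [Set.disjoint_left]
    rintro ⟨x, y⟩ (⟨h, k⟩ | ⟨h, k⟩) (⟨h', k'⟩ | ⟨h', k'⟩ | ⟨h', k'⟩ | ⟨h', k'⟩)
    · exact n3 h' h
    · exact n4 h' h
    · exact k' k
    · exact n2 h h'
    · exact n4 h' h
    · exact n3 h' h
    · exact n2 h h'
    · exact k' k
  · ext ⟨x, y⟩
    constructor
    · rintro (((⟨h, -⟩ | ⟨h, -⟩) | (⟨h, -⟩ | ⟨h, -⟩)) | (⟨h, -⟩ | ⟨h, -⟩ | ⟨h, -⟩ | ⟨h, -⟩))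
      · exact Or.inl h
      · exact Or.inr (Or.inl h)
      · exact Or.inr (Or.inr (Or.inl h))
      · exact Or.inr (Or.inr (Or.inr h))
      · exact Or.inl h
      · exact Or.inr (Or.inl h)
      · exact Or.inr (Or.inr (Or.inl h))
      · exact Or.inr (Or.inr (Or.inr h))
    · rintro (h | h | h | h)
      · by_cases k : onA S x
        · exact Or.inl (Or.inl (Or.inl ⟨h, k⟩))
        · exact Or.inr (Or.inl ⟨h, k⟩)
      · by_cases k : onA S y
        · exact Or.inl (Or.inl (Or.inr ⟨h, k⟩))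
        · exact Or.inr (Or.inr (Or.inl ⟨h, k⟩))
      · by_cases k : onB S x
        · exact Or.inl (Or.inr (Or.inl ⟨h, k⟩))
        · exact Or.inr (Or.inr (Or.inr (Or.inl ⟨h, k⟩)))
      · by_cases k : onB S y
        · exact Or.inl (Or.inr (Or.inr ⟨h, k⟩))
        · exact Or.inr (Or.inr (Or.inr (Or.inr ⟨h, k⟩)))
  · intro x
    refine ⟨?_, ?_, ?_⟩
    · obtain ⟨n, hn⟩ := hitA hc x
      refine ⟨a ^ n, ⟨n, rfl⟩, a ^ (1 + n), ⟨_, rfl⟩, Or.inl ⟨?_, hn⟩⟩
      change a ^ (1 + n) • x = a • a ^ n • x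
      rw [zpow_one_add, mul_smul]
    · obtain ⟨n, hn⟩ := hitB hc x
      refine ⟨b ^ n, ⟨n, rfl⟩, b ^ (1 + n), ⟨_, rfl⟩, Or.inl ⟨?_, hn⟩⟩
      change b ^ (1 + n) • x = b • b ^ n • x
      rw [zpow_one_add, mul_smul]
    · obtain ⟨n, hn | hn⟩ := hitC hi hc x
      · refine ⟨w (2 * n), ⟨_, rfl⟩, w (2 * n + 1), ⟨_, rfl⟩, Or.inl ⟨?_, ?_⟩⟩
        · change w (2 * n + 1) • x = a • w (2 * n) • x
          rw [w_odd, w_even, mul_smul]
        · change ¬ onA S (w (2 * n) • x)
          rwa [w_even]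
      · refine ⟨w (2 * n + 1), ⟨_, rfl⟩, w (2 * n + 1 + 1), ⟨_, rfl⟩,
          Or.inr (Or.inr (Or.inl ⟨?_, ?_⟩))⟩
        · change w (2 * n + 1 + 1) • x = b • w (2 * n + 1) • x
          rw [w_rec_odd _ (odd_two_mul_add_one n), mul_smul]
        · change ¬ onB S (w (2 * n + 1) • x)
          rwa [w_odd, mul_smul]

end Pool.Agent.Results.MP_2fa24b_lc.BorelPartition
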